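import Pool.Agent.H.MP_42b5d3_al.Basic

namespace Pool.Agent.Results.MP_42b5d3_al.BasicNotF
open Pool.Agent.H.MP_42b5d3_al

theorem chain {S : Type} [Ring S] (J : ℕ → Set S) (u : ℕ → S) (h1 : ∀ n, u n ∈ J (n + 1))
    (h2 : ∀ n, u n ∉ J n) (I : ℕ →o Ideal S) (h : ∀ n, (I n : Set S) = J n) :
    ¬ IsNoetherianRing S := fun hS => by
  obtain ⟨n, hn⟩ := monotone_stabilizes_iff_noetherian.2 hS I
  exact h2 n (by rw [← h, hn (n + 1) n.le_succ, h]; exact h1 n)

theorem basic_pi (K : ℕ → Type) [∀ i, DivisionRing (K i)] :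
    OrzechProperty (∀ i, K i) ∧ OrzechProperty (∀ i, K i)ᵐᵒᵖ := by
  refine ⟨orzech fun a => ⟨fun i => (a i)⁻¹, fun r => ?_, ?_⟩,
    orzech fun a => ⟨.op fun i => (a.unop i)⁻¹, fun r => ?_, ?_⟩⟩
  · ext i; rcases eq_or_ne (a i) 0 with h | h <;> simp [h]
  · ext i; rcases eq_or_ne (a i) 0 with h | h <;> simp [h]
  · refine MulOpposite.unop_injective (funext fun i => ?_)
    rcases eq_or_ne (a.unop i) 0 with h | h <;> simp [h]
  · refine MulOpposite.unop_injective (funext fun i => ?_)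
    rcases eq_or_ne (a.unop i) 0 with h | h <;> simp [h]

theorem main (K : ℕ → Type) [∀ i, DivisionRing (K i)] (em : ∀ i, Gm (i + 1) →* K i)
    (em_inj : ∀ i, Function.Injective (em i)) : ∃ s : Set (∀ i, K i), s.Finite ∧
      ∀ S : Subring (∀ i, K i), s ⊆ S → ¬ IsNoetherianRing S ∧ ¬ IsNoetherianRing Sᵐᵒᵖ := by
  refine ⟨{fun i => em i (gx i), fun i => em i (gs i 0), fun i => em i (gt i),
    fun i => em i (gt i)⁻¹}, Set.toFinite _, fun S hS => ?_⟩
  have hx : (fun i => em i (gx i)) ∈ S := hS (by simp)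
  have hs : ∀ n, (fun i => em i (gs i n)) ∈ S := fun n => by
    induction n with
    | zero => exact hS (by simp)
    | succ n ih =>
      simp only [gs_succ, map_mul]
      exact mul_mem (mul_mem (hS (a := fun i => em i (gt i)) (by simp)) ih)
        (hS (a := fun i => em i (gt i)⁻¹) (by simp))
  let u : ℕ → S := fun n => ⟨_, hx⟩ * ⟨_, hs n⟩ - ⟨_, hs n⟩ * ⟨_, hx⟩
  have hu : ∀ n i, n ≤ i → ((u n).1 i = 0 ↔ n < i) := fun n i h => by
    rw [← comm_iff h, ← (em_inj i).eq_iff, map_mul, map_mul]; exact sub_eq_zero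
  constructor
  · exact chain (fun n => {r | ∀ i, n ≤ i → r.1 i = 0}) u
      (fun n i h => (hu n i (by omega)).2 h) (fun n h => lt_irrefl n ((hu n n le_rfl).1 (h n le_rfl)))
      ⟨fun n => ⟨⟨⟨{r | ∀ i, n ≤ i → r.1 i = 0}, fun ha hb i h => by simp [ha i h, hb i h]⟩,
        fun _ _ => rfl⟩, fun c a ha i h => by simp [ha i h]⟩,
        fun _ _ h _ ha i hi => ha i (h.trans hi)⟩ fun _ => rfl
  · exact chain (fun n => {r | ∀ i, n ≤ i → r.unop.1 i = 0}) (fun n => .op (u n))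
      (fun n i h => (hu n i (by omega)).2 h) (fun n h => lt_irrefl n ((hu n n le_rfl).1 (h n le_rfl)))
      ⟨fun n => ⟨⟨⟨{r | ∀ i, n ≤ i → r.unop.1 i = 0}, fun ha hb i h => by simp [ha i h, hb i h]⟩,
        fun _ _ => rfl⟩, fun c a ha i h => by simp [ha i h]⟩,
        fun _ _ h _ ha i hi => ha i (h.trans hi)⟩ fun _ => rfl

theorem result : ∃ (R : Type) (_ : Ring R), (OrzechProperty R ∧ OrzechProperty Rᵐᵒᵖ) ∧
    ∃ s : Set R, s.Finite ∧ ∀ S : Subring R, s ⊆ S →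
      ¬ IsNoetherianRing S ∧ ¬ IsNoetherianRing Sᵐᵒᵖ :=
  ⟨∀ i, D i, inferInstance, basic_pi D, main D H.MP_42b5d3_al.em em_inj⟩

end Pool.Agent.Results.MP_42b5d3_al.BasicNotF
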